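import Pool.Agent.X232.SF.Final

/-!
# A non-sofic monoid with sofic group of units and sofic orbit quotients
-/

set_option autoImplicit false

namespace Pool.Agent.Results.MP_3452f1_al.NonSoficOrbits

open Pool.Agent.X232.SF

/-- There is a non-sofic monoid `M` whose `𝒥`-class of `1` is a sofic group `G = U(M)` such that
all the quotients `G / N_O` of `G` by the pointwise stabilisers of the orbits `O = m G` of the right
translation action of `G` on `M` are sofic. -/
theorem result : ∃ (M : Type) (_ : Monoid M), JOneIsGroup M ∧ Sofic Mˣ ∧
    (∀ m : M, Sofic (Mˣ ⧸ orbStab m)) ∧ ¬ Sofic M :=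
  ⟨Pt true HC, inferInstance, jOne, (rf_units true).sofic, orb_sofic, not_sofic_conc⟩

end Pool.Agent.Results.MP_3452f1_al.NonSoficOrbits
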